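import Pool.Agent.H640.Chr.Uni

set_option autoImplicit false

/-!
Groups with finitely many conjugacy classes of elements of infinite order.
-/

namespace Pool.Agent.H640.Chr

open Filter Topology

section group
variable {G : Type*} [Group G]

theorem isConj_pow' {a b : G} (h : IsConj a b) (m : ℕ) : IsConj (a ^ m) (b ^ m) := by
  obtain ⟨c, hc⟩ := isConj_iff.1 h
  refine isConj_iff.2 ⟨c, ?_⟩
  rw [← hc, conj_pow]

/-- the map of conjugacy classes given by `g ↦ g ^ m` -/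
def powC (m : ℕ) : ConjClasses G → ConjClasses G :=
  Quotient.map (fun g : G => g ^ m) fun _ _ h => isConj_pow' h m

theorem powC_mk (m : ℕ) (g : G) : powC m (ConjClasses.mk g) = ConjClasses.mk (g ^ m) := rfl

theorem powC_mul (m n : ℕ) (c : ConjClasses G) : powC (m * n) c = powC n (powC m c) := by
  obtain ⟨g, rfl⟩ := ConjClasses.mk_surjective c
  rw [powC_mk, powC_mk, powC_mk, pow_mul]

theorem powC_pow (m k : ℕ) (c : ConjClasses G) : powC (m ^ k) c = (powC m)^[k] c := by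
  induction k generalizing c with
  | zero =>
    obtain ⟨g, rfl⟩ := ConjClasses.mk_surjective c
    rw [pow_zero, powC_mk, pow_one]
    rfl
  | succ k ih =>
    rw [pow_succ', powC_mul, ih, Function.iterate_succ_apply]

/-- the classes of the elements of infinite order -/
def infClasses (G : Type*) [Group G] : Set (ConjClasses G) :=
  {c | ∃ g, ConjClasses.mk g = c ∧ ¬ IsOfFinOrder g}

theorem powC_mem {m : ℕ} (hm : 1 ≤ m) {c : ConjClasses G} (hc : c ∈ infClasses G) :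
    powC m c ∈ infClasses G := by
  obtain ⟨g, rfl, hg⟩ := hc
  refine ⟨g ^ m, rfl, fun h => hg ?_⟩
  exact (isOfFinOrder_pow.1 h).resolve_right (by omega)

theorem exists_core (hG : (infClasses G).Finite) :
    ∃ L : ℕ, 1 ≤ L ∧ ∃ r : ℕ, 1 ≤ r ∧ ∀ g : G, ¬ IsOfFinOrder g → ∀ m : ℕ, 1 ≤ m →
      IsConj ((g ^ L) ^ (m ^ r)) (g ^ L) := by
  classical
  let A : ℕ → Set (ConjClasses G) := fun L => powC L '' infClasses G
  have hAfin : ∀ L, (A L).Finite := fun L => hG.image _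
  -- minimal
  obtain ⟨L, hL, hmin⟩ : ∃ L : ℕ, 1 ≤ L ∧ ∀ L', 1 ≤ L' → (A L).ncard ≤ (A L').ncard := by
    have hne : ∃ k, ∃ L : ℕ, 1 ≤ L ∧ (A L).ncard = k := ⟨_, 1, le_refl 1, rfl⟩
    obtain ⟨L, hL, hk⟩ := Nat.find_spec hne
    refine ⟨L, hL, fun L' hL' => ?_⟩
    rw [hk]
    exact Nat.find_min' hne ⟨L', hL', rfl⟩
  have hsub : ∀ m, 1 ≤ m → A (L * m) ⊆ A L := by
    rintro m hm _ ⟨c, hc, rfl⟩
    refine ⟨powC m c, powC_mem hm hc, ?_⟩
    rw [← powC_mul, mul_comm]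
  have heq : ∀ m, 1 ≤ m → A (L * m) = A L := fun m hm =>
    Set.eq_of_subset_of_ncard_le (hsub m hm) (hmin _ (Nat.mul_pos hL hm)) (hAfin L)
  have hmaps : ∀ m, 1 ≤ m → ∀ c ∈ A L, powC m c ∈ A L := by
    rintro m hm _ ⟨c, hc, rfl⟩
    rw [← powC_mul]
    exact hsub m hm ⟨c, hc, rfl⟩
  have hsurj : ∀ m, 1 ≤ m → ∀ c ∈ A L, ∃ c' ∈ A L, powC m c' = c := by
    intro m hm c hc
    rw [← heq m hm] at hc
    obtain ⟨d, hd, rfl⟩ := hc
    exact ⟨powC L d, ⟨d, hd, rfl⟩, by rw [← powC_mul]⟩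
  have : Finite (A L) := (hAfin L).to_subtype
  let r := Nat.card (Equiv.Perm (A L))
  have hr : 1 ≤ r := Nat.card_pos
  refine ⟨L, hL, r, hr, fun g hg m hm => ?_⟩
  let f : A L → A L := fun c => ⟨powC m c.1, hmaps m hm c.1 c.2⟩
  have hf : Function.Surjective f := by
    rintro ⟨c, hc⟩
    obtain ⟨c', hc', h⟩ := hsurj m hm c hc
    exact ⟨⟨c', hc'⟩, Subtype.ext h⟩
  let σ : Equiv.Perm (A L) := Equiv.ofBijective f ⟨Finite.injective_iff_surjective.2 hf, hf⟩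
  have hσ : σ ^ r = 1 := pow_card_eq_one'
  have hit : ∀ k, ∀ c : A L, ((σ ^ k) c).1 = (powC m)^[k] c.1 := by
    intro k
    induction k with
    | zero => intro c; rfl
    | succ k ih =>
      intro c
      rw [pow_succ, Function.iterate_succ_apply]
      exact ih (σ c)
  have hc : ConjClasses.mk (g ^ L) ∈ A L := ⟨ConjClasses.mk g, ⟨g, rfl, hg⟩, rfl⟩
  have h1 := hit r ⟨_, hc⟩
  rw [hσ, ← powC_pow, powC_mk] at h1
  exact (ConjClasses.mk_eq_mk_iff_isConj.1 h1).symm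

end group

section rep
variable {G : Type*} [Group G] {H : Type*} [NormedAddCommGroup H] [InnerProductSpace ℂ H]

open scoped InnerProductSpace

/-- `ξ` is a trace vector of the unitary representation `π`. -/
def TraceVector (π : G →* (H ≃ₗᵢ[ℂ] H)) (ξ : H) : Prop :=
  ∀ g h : G, ⟪ξ, π (h * g * h⁻¹) ξ⟫_ℂ = ⟪ξ, π g ξ⟫_ℂ

theorem inner_rep (π : G →* (H ≃ₗᵢ[ℂ] H)) (g : G) (x y : H) : ⟪π g x, y⟫_ℂ = ⟪x, π g⁻¹ y⟫_ℂ := by
  rw [← (π g⁻¹).inner_map_map (π g x) y]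
  congr 1
  show (π g⁻¹ * π g) x = x
  rw [← map_mul, inv_mul_cancel, map_one]
  rfl

theorem rep_mul (π : G →* (H ≃ₗᵢ[ℂ] H)) (g h : G) (x : H) : π (g * h) x = π g (π h x) := by
  rw [map_mul]
  rfl

theorem TraceVector.conj {π : G →* (H ≃ₗᵢ[ℂ] H)} {ξ : H} (h : TraceVector π ξ) {a b : G} (hab : IsConj a b) :
    ⟪ξ, π a ξ⟫_ℂ = ⟪ξ, π b ξ⟫_ℂ := by
  obtain ⟨c, rfl⟩ := isConj_iff.1 hab
  exact (h a c).symm

theorem TraceVector.translate {π : G →* (H ≃ₗᵢ[ℂ] H)} {ξ : H} (h : TraceVector π ξ) (x g : G) :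
    ⟪π x ξ, π g (π x ξ)⟫_ℂ = ⟪ξ, π g ξ⟫_ℂ := by
  rw [inner_rep, ← rep_mul, ← rep_mul]
  have h1 := h g x⁻¹
  rw [inv_inv] at h1
  rw [← h1]

theorem TraceVector.translate' {π : G →* (H ≃ₗᵢ[ℂ] H)} {ξ : H} (h : TraceVector π ξ) (x : G) :
    TraceVector π (π x ξ) := by
  intro g y
  rw [h.translate, h.translate]
  exact h g y

variable [CompleteSpace H]

/-- the values of the character on the powers of an element `b` which is conjugate to all `b ^ (m ^ r)` -/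
theorem TraceVector.value {π : G →* (H ≃ₗᵢ[ℂ] H)} {ξ : H} (h : TraceVector π ξ) {b : G} {r : ℕ} (hr : 1 ≤ r)
    (hb : ∀ m : ℕ, 1 ≤ m → IsConj (b ^ (m ^ r)) b) {v₀ v₁ : H} (h₀ : v₀ ∈ fixed (π b))
    (h₁ : v₁ ∈ (fixed (π b))ᗮ) (hv : ξ = v₀ + v₁) (n : ℤ) (hn : n ≠ 0) :
    ⟪ξ, π (b ^ n) ξ⟫_ℂ = ((‖v₀‖ ^ 2 : ℝ) : ℂ) := by
  rw [map_zpow]
  refine const_of_power_invariant (π b) ξ hr ?_ h₀ h₁ hv n hn
  intro n _ m hm
  rw [← map_zpow, ← map_zpow]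
  refine h.conj ?_
  obtain ⟨c, hc⟩ := isConj_iff.1 (hb m hm)
  refine isConj_iff.2 ⟨c, ?_⟩
  have e : b ^ ((m : ℤ) ^ r) = b ^ (m ^ r) := by norm_cast
  rw [mul_comm n, zpow_mul, e, ← conj_zpow, hc]

/-- orthogonality of the powers on the complement of the fixed vectors -/
theorem TraceVector.orth {π : G →* (H ≃ₗᵢ[ℂ] H)} {ξ : H} (h : TraceVector π ξ) {b : G} {r : ℕ} (hr : 1 ≤ r)
    (hb : ∀ m : ℕ, 1 ≤ m → IsConj (b ^ (m ^ r)) b) {v₀ v₁ : H} (h₀ : v₀ ∈ fixed (π b))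
    (h₁ : v₁ ∈ (fixed (π b))ᗮ) (hv : ξ = v₀ + v₁) (n : ℤ) (hn : n ≠ 0) :
    ⟪v₁, π (b ^ n) v₁⟫_ℂ = 0 := by
  have h2 := h.value hr hb h₀ h₁ hv n hn
  have h3 : π (b ^ n) v₀ = v₀ := by
    rw [map_zpow]
    exact fixed_zpow h₀ n
  have h4 : ⟪v₁, v₀⟫_ℂ = 0 := Submodule.inner_left_of_mem_orthogonal h₀ h₁
  have h5 : ⟪v₀, π (b ^ n) v₁⟫_ℂ = 0 := by
    rw [← inv_inv (b ^ n), ← inner_rep, ← zpow_neg]
    have h6 : π (b ^ (-n)) v₀ = v₀ := by
      rw [map_zpow]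
      exact fixed_zpow h₀ (-n)
    rw [h6]
    exact Submodule.inner_right_of_mem_orthogonal h₀ h₁
  rw [hv, map_add, inner_add_left, inner_add_right, inner_add_right, h3, h4, h5,
    inner_self_eq_norm_sq_to_K] at h2
  have h7 : (((‖v₀‖ ^ 2 : ℝ)) : ℂ) = ((‖v₀‖ : ℝ) : ℂ) ^ 2 := by norm_cast
  rw [h7] at h2
  simpa using h2

end rep

end Pool.Agent.H640.Chr
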