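import Mathlib

set_option autoImplicit false

/-!
A translation invariant mean for bounded sequences, and the lemma of van der Corput for it.
-/

namespace Pool.Agent.H640.Chr

open Filter Topology

/-- Averages. -/
noncomputable def avg (u : ℕ → ℂ) (N : ℕ) : ℂ := (N : ℂ)⁻¹ * ∑ n ∈ Finset.range N, u n

/-- A translation invariant mean. -/
noncomputable def LIM (u : ℕ → ℂ) : ℂ := limUnder ((hyperfilter ℕ : Ultrafilter ℕ) : Filter ℕ) (avg u)

/-- Bounded sequences. -/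
def Bdd (u : ℕ → ℂ) : Prop := ∃ C : ℝ, ∀ n, ‖u n‖ ≤ C

theorem Bdd.of_le {u : ℕ → ℂ} (C : ℝ) (h : ∀ n, ‖u n‖ ≤ C) : Bdd u := ⟨C, h⟩

theorem Bdd.add {u v : ℕ → ℂ} (hu : Bdd u) (hv : Bdd v) : Bdd fun n => u n + v n := by
  obtain ⟨C, hC⟩ := hu
  obtain ⟨D, hD⟩ := hv
  exact ⟨C + D, fun n => (norm_add_le _ _).trans (add_le_add (hC n) (hD n))⟩

theorem Bdd.mul_const {u : ℕ → ℂ} (hu : Bdd u) (c : ℂ) : Bdd fun n => c * u n := by
  obtain ⟨C, hC⟩ := hu
  exact ⟨‖c‖ * C, fun n => by rw [norm_mul]; exact mul_le_mul_of_nonneg_left (hC n) (norm_nonneg _)⟩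

theorem norm_avg_le {u : ℕ → ℂ} {C : ℝ} (h : ∀ n, ‖u n‖ ≤ C) (N : ℕ) : ‖avg u N‖ ≤ C := by
  have hC : 0 ≤ C := (norm_nonneg _).trans (h 0)
  unfold avg
  rcases Nat.eq_zero_or_pos N with rfl | hN
  · simpa using hC
  · have hN' : (0 : ℝ) < N := by exact_mod_cast hN
    rw [norm_mul, norm_inv, Complex.norm_natCast]
    have h1 : ‖∑ n ∈ Finset.range N, u n‖ ≤ N * C := by
      refine (norm_sum_le _ _).trans ((Finset.sum_le_sum fun n _ => h n).trans ?_)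
      simp
    calc (N : ℝ)⁻¹ * ‖∑ n ∈ Finset.range N, u n‖ ≤ (N : ℝ)⁻¹ * (N * C) :=
          mul_le_mul_of_nonneg_left h1 (by positivity)
      _ = C := by field_simp

theorem tendsto_LIM {u : ℕ → ℂ} (h : Bdd u) :
    Tendsto (avg u) ((hyperfilter ℕ : Ultrafilter ℕ) : Filter ℕ) (𝓝 (LIM u)) := by
  obtain ⟨C, hC⟩ := h
  have hK : IsCompact (Metric.closedBall (0 : ℂ) C) := isCompact_closedBall 0 C
  have h1 := hK.ultrafilter_le_nhds ((hyperfilter ℕ).map (avg u)) (by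
    rw [le_principal_iff]
    refine Filter.mem_map.2 (Filter.univ_mem' fun N => ?_)
    simpa using norm_avg_le hC N)
  obtain ⟨x, _, hx⟩ := h1
  have h2 : Tendsto (avg u) ((hyperfilter ℕ : Ultrafilter ℕ) : Filter ℕ) (𝓝 x) := hx
  have h3 : LIM u = x := h2.limUnder_eq
  rw [h3]
  exact h2

theorem LIM_eq {u : ℕ → ℂ} {a : ℂ}
    (h : Tendsto (avg u) ((hyperfilter ℕ : Ultrafilter ℕ) : Filter ℕ) (𝓝 a)) : LIM u = a :=
  h.limUnder_eq

theorem avg_add (u v : ℕ → ℂ) (N : ℕ) : avg (fun n => u n + v n) N = avg u N + avg v N := by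
  unfold avg
  rw [Finset.sum_add_distrib, mul_add]

theorem LIM_add {u v : ℕ → ℂ} (hu : Bdd u) (hv : Bdd v) : LIM (fun n => u n + v n) = LIM u + LIM v := by
  refine LIM_eq (((tendsto_LIM hu).add (tendsto_LIM hv)).congr fun N => ?_)
  rw [avg_add]

theorem LIM_mul {u : ℕ → ℂ} (hu : Bdd u) (c : ℂ) : LIM (fun n => c * u n) = c * LIM u := by
  refine LIM_eq (((tendsto_LIM hu).const_mul c).congr fun N => ?_)
  unfold avg
  rw [← Finset.mul_sum]
  ring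

theorem LIM_const (c : ℂ) : LIM (fun _ => c) = c := by
  refine LIM_eq ((tendsto_const_nhds (x := c)).congr' ?_)
  have h1 : ∀ᶠ N : ℕ in atTop, N ≠ 0 := eventually_ne_atTop 0
  refine (h1.filter_mono (Nat.hyperfilter_le_atTop)).mono fun N hN => ?_
  have hN' : (N : ℂ) ≠ 0 := by exact_mod_cast hN
  simp [avg, hN']

theorem LIM_sum {ι : Type*} (s : Finset ι) {u : ι → ℕ → ℂ} (hu : ∀ i ∈ s, Bdd (u i)) :
    Bdd (fun n => ∑ i ∈ s, u i n) ∧ LIM (fun n => ∑ i ∈ s, u i n) = ∑ i ∈ s, LIM (u i) := by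
  classical
  induction s using Finset.induction_on with
  | empty => exact ⟨⟨0, fun n => by simp⟩, by simpa using LIM_const 0⟩
  | insert a s ha ih =>
    obtain ⟨h1, h2⟩ := ih fun i hi => hu i (Finset.mem_insert_of_mem hi)
    have h3 := hu a (Finset.mem_insert_self a s)
    constructor
    · simpa only [Finset.sum_insert ha] using h3.add h1
    · simp only [Finset.sum_insert ha]
      rw [LIM_add h3 h1, h2]

theorem LIM_conj {u : ℕ → ℂ} (hu : Bdd u) :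
    LIM (fun n => starRingEnd ℂ (u n)) = starRingEnd ℂ (LIM u) := by
  have h1 := (Complex.continuous_conj.tendsto (LIM u)).comp (tendsto_LIM hu)
  refine LIM_eq (h1.congr fun N => ?_)
  unfold avg
  simp [map_mul, map_sum]

theorem LIM_shift_one {u : ℕ → ℂ} (hu : Bdd u) : LIM (fun n => u (n + 1)) = LIM u := by
  obtain ⟨C, hC⟩ := hu
  have h0 : Tendsto (fun N : ℕ => avg (fun n => u (n + 1)) N - avg u N) atTop (𝓝 0) := by
    rw [tendsto_zero_iff_norm_tendsto_zero]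
    have h2 : Tendsto (fun N : ℕ => (2 * C) / (N : ℝ)) atTop (𝓝 0) :=
      tendsto_const_div_atTop_nhds_zero_nat (2 * C)
    refine squeeze_zero (fun _ => norm_nonneg _) (fun N => ?_) h2
    have h3 : avg (fun n => u (n + 1)) N - avg u N = (N : ℂ)⁻¹ * (u N - u 0) := by
      unfold avg
      rw [← mul_sub, ← Finset.sum_sub_distrib, Finset.sum_range_sub]
    rw [h3, norm_mul, norm_inv, Complex.norm_natCast, div_eq_inv_mul]
    refine mul_le_mul_of_nonneg_left ?_ (by positivity)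
    refine (norm_sub_le _ _).trans ?_
    linarith [hC N, hC 0]
  have h1 := (tendsto_LIM ⟨C, hC⟩).add (h0.mono_left Nat.hyperfilter_le_atTop)
  rw [add_zero] at h1
  refine LIM_eq (h1.congr fun N => ?_)
  ring

theorem LIM_shift {u : ℕ → ℂ} (hu : Bdd u) (k : ℕ) : LIM (fun n => u (n + k)) = LIM u := by
  induction k with
  | zero => rfl
  | succ k ih =>
    obtain ⟨C, hC⟩ := hu
    have h1 := LIM_shift_one (u := fun n => u (n + k)) ⟨C, fun n => hC _⟩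
    rw [← ih, ← h1]
    congr 1
    funext n
    congr 1
    ring

/-- the mean of a real-valued sequence bounded by `C` -/
theorem LIM_re_le {u : ℕ → ℂ} (hu : Bdd u) {C : ℝ} (h : ∀ n, (u n).re ≤ C) : (LIM u).re ≤ C := by
  have h1 := (Complex.continuous_re.tendsto (LIM u)).comp (tendsto_LIM hu)
  have h2 : ∀ᶠ N : ℕ in ((hyperfilter ℕ : Ultrafilter ℕ) : Filter ℕ), (Complex.re ∘ avg u) N ≤ C := by
    have h3 : ∀ᶠ N : ℕ in atTop, 0 < N := eventually_gt_atTop 0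
    refine (h3.filter_mono (Nat.hyperfilter_le_atTop)).mono fun N hN => ?_
    have hN' : (0 : ℝ) < N := by exact_mod_cast hN
    have h4 : (avg u N).re = (N : ℝ)⁻¹ * ∑ n ∈ Finset.range N, (u n).re := by
      unfold avg
      rw [← Complex.ofReal_natCast, ← Complex.ofReal_inv, Complex.re_ofReal_mul, Complex.re_sum]
    show (avg u N).re ≤ C
    rw [h4]
    have h5 : ∑ n ∈ Finset.range N, (u n).re ≤ N * C := by
      refine (Finset.sum_le_sum fun n _ => h n).trans ?_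
      simp
    calc (N : ℝ)⁻¹ * ∑ n ∈ Finset.range N, (u n).re ≤ (N : ℝ)⁻¹ * (N * C) :=
          mul_le_mul_of_nonneg_left h5 (by positivity)
      _ = C := by field_simp
  exact le_of_tendsto h1 h2

theorem norm_LIM_le {u : ℕ → ℂ} {C : ℝ} (h : ∀ n, ‖u n‖ ≤ C) : ‖LIM u‖ ≤ C :=
  le_of_tendsto ((tendsto_LIM ⟨C, h⟩).norm) (Eventually.of_forall fun N => norm_avg_le h N)

theorem sq_norm_LIM_le {u : ℕ → ℂ} (hu : Bdd u) :
    ‖LIM u‖ ^ 2 ≤ (LIM fun n => (((‖u n‖ ^ 2 : ℝ)) : ℂ)).re := by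
  obtain ⟨C, hC⟩ := hu
  set a := LIM u with ha
  have hb2 : Bdd fun n => (((‖u n‖ ^ 2 : ℝ)) : ℂ) := ⟨C ^ 2, fun n => by
    rw [Complex.norm_real, Real.norm_of_nonneg (by positivity)]
    exact pow_le_pow_left₀ (norm_nonneg _) (hC n) 2⟩
  -- -(|u|^2) + 2 Re (conj a u) ≤ |a|^2
  have h1 : ∀ n, ((-1 : ℂ) * (((‖u n‖ ^ 2 : ℝ)) : ℂ) + (2 * starRingEnd ℂ a) * u n).re ≤ ‖a‖ ^ 2 := by
    intro n
    have h2 : 0 ≤ ‖u n - a‖ ^ 2 := by positivity
    have e1 : ‖u n - a‖ ^ 2 = ‖u n‖ ^ 2 - 2 * (starRingEnd ℂ a * u n).re + ‖a‖ ^ 2 := by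
      rw [← Complex.normSq_eq_norm_sq, ← Complex.normSq_eq_norm_sq, ← Complex.normSq_eq_norm_sq,
        Complex.normSq_sub]
      simp [Complex.mul_re]
      ring
    have e2 : ((-1 : ℂ) * (((‖u n‖ ^ 2 : ℝ)) : ℂ) + (2 * starRingEnd ℂ a) * u n).re =
        - ‖u n‖ ^ 2 + 2 * (starRingEnd ℂ a * u n).re := by
      rw [Complex.add_re, mul_assoc, neg_one_mul, Complex.neg_re, Complex.ofReal_re]
      congr 1
      rw [show (2 : ℂ) = ((2 : ℝ) : ℂ) by norm_num, Complex.re_ofReal_mul]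
    rw [e2]
    linarith
  have hu' : Bdd u := ⟨C, hC⟩
  have h3 := LIM_re_le ((hb2.mul_const (-1)).add (hu'.mul_const (2 * starRingEnd ℂ a))) h1
  rw [LIM_add (hb2.mul_const (-1)) (hu'.mul_const _), LIM_mul hb2, LIM_mul hu', ← ha] at h3
  have h4 : (2 * starRingEnd ℂ a * a).re = 2 * ‖a‖ ^ 2 := by
    rw [mul_assoc, mul_comm (starRingEnd ℂ a) a, Complex.mul_conj, Complex.normSq_eq_norm_sq,
      show (2 : ℂ) = ((2 : ℝ) : ℂ) by norm_num, Complex.re_ofReal_mul, Complex.ofReal_re]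
  rw [Complex.add_re, h4, neg_one_mul, Complex.neg_re] at h3
  linarith

variable {H : Type*} [NormedAddCommGroup H] [InnerProductSpace ℂ H]

open scoped InnerProductSpace

theorem bdd_inner {x y : ℕ → H} {C D : ℝ} (hx : ∀ n, ‖x n‖ ≤ C) (hy : ∀ n, ‖y n‖ ≤ D) :
    Bdd fun n => ⟪x n, y n⟫_ℂ :=
  ⟨C * D, fun n => (norm_inner_le_norm _ _).trans
    (mul_le_mul (hx n) (hy n) (norm_nonneg _) ((norm_nonneg _).trans (hx n)))⟩

/-- **van der Corput** -/
theorem vdC {x : ℕ → H} {C : ℝ} (hx : ∀ n, ‖x n‖ ≤ C)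
    (h : ∀ k : ℕ, 1 ≤ k → LIM (fun n => ⟪x n, x (n + k)⟫_ℂ) = 0) (v : H) :
    LIM (fun n => ⟪v, x n⟫_ℂ) = 0 := by
  set c := LIM (fun n => ⟪v, x n⟫_ℂ) with hc
  have hC : 0 ≤ C := (norm_nonneg _).trans (hx 0)
  have hvx : Bdd fun n => ⟪v, x n⟫_ℂ := bdd_inner (x := fun _ => v) (fun _ => le_refl _) hx
  -- pair means
  have hij : ∀ i j : ℕ, i ≠ j → LIM (fun n => ⟪x (n + i), x (n + j)⟫_ℂ) = 0 := by
    have key : ∀ i k : ℕ, 1 ≤ k → LIM (fun n => ⟪x (n + i), x (n + (i + k))⟫_ℂ) = 0 := by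
      intro i k hk
      have h1 := LIM_shift (u := fun n => ⟪x n, x (n + k)⟫_ℂ) (bdd_inner hx fun n => hx _) i
      rw [h k hk] at h1
      rw [← h1]
      congr 1
      funext n
      congr 2
      ring
    intro i j hne
    rcases lt_or_gt_of_ne hne with hlt | hgt
    · obtain ⟨k, rfl⟩ := Nat.exists_eq_add_of_lt hlt
      exact key i (k + 1) (by omega)
    · obtain ⟨k, rfl⟩ := Nat.exists_eq_add_of_lt hgt
      have h1 := key j (k + 1) (by omega)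
      have h2 := LIM_conj (u := fun n => ⟪x (n + j), x (n + (j + (k + 1)))⟫_ℂ)
        (bdd_inner (fun n => hx _) fun n => hx _)
      rw [h1, map_zero] at h2
      rw [← h2]
      congr 1
      funext n
      rw [inner_conj_symm]
      rfl
  -- inequality for all K
  have main : ∀ K : ℕ, ((K : ℝ) * ‖c‖) ^ 2 ≤ ‖v‖ ^ 2 * (K * C ^ 2) := by
    intro K
    set y : ℕ → H := fun n => ∑ j ∈ Finset.range K, x (n + j) with hy
    have hyb : ∀ n, ‖y n‖ ≤ K * C := by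
      intro n
      refine (norm_sum_le _ _).trans ((Finset.sum_le_sum fun j _ => hx _).trans ?_)
      simp
    have h1 : LIM (fun n => ⟪v, y n⟫_ℂ) = K * c := by
      have e : (fun n => ⟪v, y n⟫_ℂ) = fun n => ∑ j ∈ Finset.range K, ⟪v, x (n + j)⟫_ℂ := by
        funext n
        rw [hy, inner_sum]
      rw [e, (LIM_sum (Finset.range K) (u := fun j n => ⟪v, x (n + j)⟫_ℂ)
        fun j _ => bdd_inner (x := fun _ => v) (fun _ => le_refl _) fun n => hx _).2]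
      rw [Finset.sum_congr rfl fun j _ => LIM_shift (u := fun n => ⟪v, x n⟫_ℂ) hvx j]
      simp [← hc]
    have h2 := sq_norm_LIM_le (u := fun n => ⟪v, y n⟫_ℂ)
      (bdd_inner (x := fun _ => v) (fun _ => le_refl _) hyb)
    rw [h1, norm_mul, Complex.norm_natCast] at h2
    refine h2.trans ?_
    -- compare with ‖v‖² ‖y‖²
    have hyy : Bdd fun n => ⟪y n, y n⟫_ℂ := bdd_inner hyb hyb
    have hb2 : Bdd fun n => (((‖⟪v, y n⟫_ℂ‖ ^ 2 : ℝ)) : ℂ) := ⟨(‖v‖ * (K * C)) ^ 2, fun n => by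
      rw [Complex.norm_real, Real.norm_of_nonneg (by positivity)]
      exact pow_le_pow_left₀ (norm_nonneg _) ((norm_inner_le_norm _ _).trans
        (mul_le_mul_of_nonneg_left (hyb n) (norm_nonneg _))) 2⟩
    have h3 : ∀ n, ((((‖⟪v, y n⟫_ℂ‖ ^ 2 : ℝ)) : ℂ) + (-(‖v‖ ^ 2 : ℝ) : ℂ) * ⟪y n, y n⟫_ℂ).re ≤ 0 := by
      intro n
      have h4 : (((-(‖v‖ ^ 2 : ℝ) : ℂ)) * ⟪y n, y n⟫_ℂ).re = - ‖v‖ ^ 2 * ‖y n‖ ^ 2 := by
        have h41 : (⟪y n, y n⟫_ℂ : ℂ) = (((‖y n‖ ^ 2 : ℝ)) : ℂ) := by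
          rw [inner_self_eq_norm_sq_to_K]
          norm_cast
        rw [h41, ← Complex.ofReal_neg, Complex.re_ofReal_mul, Complex.ofReal_re]
      rw [Complex.add_re, h4, Complex.ofReal_re]
      have h5 : ‖⟪v, y n⟫_ℂ‖ ≤ ‖v‖ * ‖y n‖ := norm_inner_le_norm _ _
      have h6 := pow_le_pow_left₀ (norm_nonneg _) h5 2
      nlinarith [h6]
    have h7 := LIM_re_le (hb2.add (hyy.mul_const _)) h3
    rw [LIM_add hb2 (hyy.mul_const _), LIM_mul hyy, Complex.add_re] at h7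
    -- the mean of ‖y‖²
    have h8 : LIM (fun n => ⟪y n, y n⟫_ℂ) = K * LIM (fun n => ⟪x n, x n⟫_ℂ) := by
      have e : (fun n => ⟪y n, y n⟫_ℂ) = fun n => ∑ i ∈ Finset.range K, ∑ j ∈ Finset.range K,
          ⟪x (n + i), x (n + j)⟫_ℂ := by
        funext n
        rw [hy, sum_inner]
        refine Finset.sum_congr rfl fun i _ => ?_
        rw [inner_sum]
      have hb : ∀ i j : ℕ, Bdd fun n => ⟪x (n + i), x (n + j)⟫_ℂ := fun i j =>
        bdd_inner (fun n => hx _) fun n => hx _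
      rw [e, (LIM_sum (Finset.range K) (u := fun i n => ∑ j ∈ Finset.range K, ⟪x (n + i), x (n + j)⟫_ℂ)
        fun i _ => (LIM_sum (Finset.range K) fun j _ => hb i j).1).2]
      have e2 : ∀ i ∈ Finset.range K, LIM (fun n => ∑ j ∈ Finset.range K, ⟪x (n + i), x (n + j)⟫_ℂ) =
          LIM (fun n => ⟪x n, x n⟫_ℂ) := by
        intro i hi
        rw [(LIM_sum (Finset.range K) (u := fun j n => ⟪x (n + i), x (n + j)⟫_ℂ) fun j _ => hb i j).2]
        rw [Finset.sum_eq_single_of_mem i hi fun j _ hj => hij i j (Ne.symm hj)]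
        exact LIM_shift (u := fun n => ⟪x n, x n⟫_ℂ) (bdd_inner hx hx) i
      rw [Finset.sum_congr rfl e2]
      simp
    have h9 : (LIM (fun n => ⟪x n, x n⟫_ℂ)).re ≤ C ^ 2 := by
      refine LIM_re_le (bdd_inner hx hx) fun n => ?_
      rw [inner_self_eq_norm_sq_to_K]
      norm_cast
      exact pow_le_pow_left₀ (norm_nonneg _) (hx n) 2
    rw [h8] at h7
    have h10 : ((-(‖v‖ ^ 2 : ℝ) : ℂ) * (K * LIM (fun n => ⟪x n, x n⟫_ℂ))).re =
        - (‖v‖ ^ 2 * (K * (LIM (fun n => ⟪x n, x n⟫_ℂ)).re)) := by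
      rw [← Complex.ofReal_neg, Complex.re_ofReal_mul, ← Complex.ofReal_natCast, Complex.re_ofReal_mul]
      ring
    rw [h10] at h7
    have h11 : ‖v‖ ^ 2 * (K * (LIM (fun n => ⟪x n, x n⟫_ℂ)).re) ≤ ‖v‖ ^ 2 * (K * C ^ 2) := by
      refine mul_le_mul_of_nonneg_left (mul_le_mul_of_nonneg_left h9 (by positivity)) (by positivity)
    linarith
  -- conclusion
  by_contra hne
  have hpos : 0 < ‖c‖ := norm_pos_iff.2 hne
  have h1 : ∀ K : ℕ, 1 ≤ K → (K : ℝ) * ‖c‖ ^ 2 ≤ ‖v‖ ^ 2 * C ^ 2 := by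
    intro K hK
    have hK' : (0 : ℝ) < K := by exact_mod_cast hK
    have h2 := main K
    have h3 : (K : ℝ) * ((K : ℝ) * ‖c‖ ^ 2) ≤ K * (‖v‖ ^ 2 * C ^ 2) := by nlinarith [h2]
    exact le_of_mul_le_mul_left h3 hK'
  obtain ⟨K, hK⟩ := exists_nat_gt (‖v‖ ^ 2 * C ^ 2 / ‖c‖ ^ 2)
  have h2 := h1 (K + 1) (by omega)
  rw [div_lt_iff₀ (by positivity)] at hK
  have h3 : (K : ℝ) * ‖c‖ ^ 2 ≤ ((K + 1 : ℕ) : ℝ) * ‖c‖ ^ 2 := by
    refine mul_le_mul_of_nonneg_right ?_ (by positivity)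
    push_cast
    linarith
  linarith

end Pool.Agent.H640.Chr
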