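import Pool.Agent.H640.Chr.Lim

set_option autoImplicit false

/-!
Polynomial mean ergodic theorem for a unitary operator, and unitary operators with
`⟪ξ, U ^ (n m ^ r) ξ⟫ = ⟪ξ, U ^ n ξ⟫` for all `n ≠ 0`, `m ≥ 1`.
-/

namespace Pool.Agent.H640.Chr

open Filter Topology Polynomial

variable {H : Type*} [NormedAddCommGroup H] [InnerProductSpace ℂ H]

open scoped InnerProductSpace

/-- the vectors fixed by `U` -/
def fixed (U : H ≃ₗᵢ[ℂ] H) : Submodule ℂ H where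
  carrier := {v | U v = v}
  add_mem' := by
    intro v w hv hw
    simp only [Set.mem_ofPred_eq] at hv hw ⊢
    rw [map_add, hv, hw]
  zero_mem' := by simp
  smul_mem' := by
    intro c v hv
    simp only [Set.mem_ofPred_eq] at hv ⊢
    rw [map_smul, hv]

theorem mem_fixed {U : H ≃ₗᵢ[ℂ] H} {v : H} : v ∈ fixed U ↔ U v = v := Iff.rfl

theorem isClosed_fixed (U : H ≃ₗᵢ[ℂ] H) : IsClosed (fixed U : Set H) :=
  isClosed_eq U.continuous continuous_id

instance [CompleteSpace H] (U : H ≃ₗᵢ[ℂ] H) : CompleteSpace (fixed U) :=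
  (isClosed_fixed U).completeSpace_coe

theorem inner_zpow (U : H ≃ₗᵢ[ℂ] H) (n : ℤ) (x y : H) : ⟪(U ^ n) x, y⟫_ℂ = ⟪x, (U ^ (-n)) y⟫_ℂ := by
  rw [← (U ^ (-n)).inner_map_map ((U ^ n) x) y]
  congr 1
  show (U ^ (-n) * U ^ n) x = x
  rw [← zpow_add, neg_add_cancel, zpow_zero]
  rfl

theorem norm_zpow (U : H ≃ₗᵢ[ℂ] H) (n : ℤ) (x : H) : ‖(U ^ n) x‖ = ‖x‖ := (U ^ n).norm_map x

theorem zpow_add_apply (U : H ≃ₗᵢ[ℂ] H) (m n : ℤ) (x : H) : (U ^ (m + n)) x = (U ^ m) ((U ^ n) x) := by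
  rw [zpow_add]
  rfl

theorem fixed_zpow {U : H ≃ₗᵢ[ℂ] H} {v : H} (h : v ∈ fixed U) (n : ℤ) : (U ^ n) v = v := by
  have hp : ∀ k : ℕ, (U ^ (k : ℤ)) v = v := by
    intro k
    induction k with
    | zero => rfl
    | succ k ih =>
      push_cast
      rw [zpow_add_apply, zpow_one, mem_fixed.1 h, ih]
  rcases Int.eq_nat_or_neg n with ⟨k, rfl | rfl⟩
  · exact hp k
  · have h1 : (U ^ (-(k : ℤ))) ((U ^ (k : ℤ)) v) = v := by
      rw [← zpow_add_apply, neg_add_cancel, zpow_zero]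
      rfl
    rwa [hp k] at h1

theorem fixed_le_fixed_zpow (U : H ≃ₗᵢ[ℂ] H) (n : ℤ) : fixed U ≤ fixed (U ^ n) :=
  fun _ hv => fixed_zpow hv n

theorem zpow_mem_fixed (U : H ≃ₗᵢ[ℂ] H) (a c : ℤ) {v : H} (hv : v ∈ fixed (U ^ a)) :
    (U ^ c) v ∈ fixed (U ^ a) := by
  rw [mem_fixed, ← zpow_add_apply, add_comm, zpow_add_apply, mem_fixed.1 hv]

theorem bdd_orbit (U : H ≃ₗᵢ[ℂ] H) (p : ℕ → ℤ) (v η : H) : Bdd fun n => ⟪v, (U ^ (p n)) η⟫_ℂ :=
  bdd_inner (x := fun _ => v) (fun _ => le_refl _) fun n => (norm_zpow U (p n) η).le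

variable [CompleteSpace H]

theorem linear_mean (U : H ≃ₗᵢ[ℂ] H) (a c : ℤ) {η : H} (hη : η ∈ (fixed (U ^ a))ᗮ) (v : H) :
    LIM (fun n => ⟪v, (U ^ (a * n + c)) η⟫_ℂ) = 0 := by
  -- the functional
  have hb : ∀ w : H, Bdd fun n : ℕ => ⟪(U ^ (a * n + c)) η, w⟫_ℂ := fun w =>
    bdd_inner (y := fun _ => w) (fun n => (norm_zpow U _ η).le) fun _ => le_refl _
  let ℓ : H →ₗ[ℂ] ℂ :=
    { toFun := fun w => LIM fun n : ℕ => ⟪(U ^ (a * n + c)) η, w⟫_ℂ
      map_add' := by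
        intro w w'
        rw [← LIM_add (hb w) (hb w')]
        congr 1
        funext n
        rw [inner_add_right]
      map_smul' := by
        intro t w
        rw [RingHom.id_apply, smul_eq_mul, ← LIM_mul (hb w)]
        congr 1
        funext n
        rw [inner_smul_right] }
  have hℓ : ∀ w, ‖ℓ w‖ ≤ ‖η‖ * ‖w‖ := by
    intro w
    refine norm_LIM_le fun n => (norm_inner_le_norm _ _).trans ?_
    rw [norm_zpow]
  let L : H →L[ℂ] ℂ := ℓ.mkContinuous ‖η‖ hℓ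
  set w : H := (InnerProductSpace.toDual ℂ H).symm L with hw
  have hwv : ∀ v : H, ⟪w, v⟫_ℂ = LIM fun n : ℕ => ⟪(U ^ (a * n + c)) η, v⟫_ℂ := by
    intro v
    rw [hw, InnerProductSpace.toDual_symm_apply]
    rfl
  have hfix : w ∈ fixed (U ^ a) := by
    rw [mem_fixed]
    refine ext_inner_right ℂ fun v => ?_
    rw [inner_zpow, hwv, hwv, ← LIM_shift_one (hb v)]
    congr 1
    funext n
    rw [← neg_neg a, ← inner_zpow, neg_neg, ← zpow_add_apply]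
    rw [show a + (a * (n : ℤ) + c) = a * ((n + 1 : ℕ) : ℤ) + c by push_cast; ring]
  have h0 : w = 0 := by
    rw [← inner_self_eq_zero (𝕜 := ℂ), hwv]
    have h1 : (fun n : ℕ => ⟪(U ^ (a * n + c)) η, w⟫_ℂ) = fun _ => (0 : ℂ) := by
      funext n
      have h2 : (U ^ (-(a * (n : ℤ) + c))) w ∈ fixed (U ^ a) := zpow_mem_fixed U a _ hfix
      rw [inner_zpow]
      exact Submodule.inner_left_of_mem_orthogonal h2 hη
    rw [h1, LIM_const]
  have h1 := hwv v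
  rw [h0, inner_zero_left] at h1
  have h2 := LIM_conj (hb v)
  rw [← h1, map_zero] at h2
  rw [← h2]
  congr 1
  funext n
  rw [inner_conj_symm]

theorem natDegree_diff {p : ℤ[X]} {d : ℕ} (hp : p.natDegree = d + 2) {k : ℤ} (hk : k ≠ 0) :
    (p.taylor k - p).natDegree = d + 1 := by
  have hle : (p.taylor k - p).natDegree ≤ d + 1 := by
    rw [Polynomial.natDegree_le_iff_coeff_eq_zero]
    intro N hN
    rw [coeff_sub, taylor_coeff]
    rcases Nat.lt_or_ge (d + 2) N with h1 | h1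
    · rw [Polynomial.coeff_eq_zero_of_natDegree_lt (by omega : p.natDegree < N)]
      have h2 : (hasseDeriv N p) = 0 := by
        exact Polynomial.hasseDeriv_eq_zero_of_lt_natDegree p N (by omega)
      rw [h2, eval_zero, sub_zero]
    · have hN' : N = d + 2 := by omega
      subst hN'
      have h2 : (hasseDeriv (d + 2) p) = C (p.coeff (d + 2)) := by
        ext j
        rw [hasseDeriv_coeff, coeff_C]
        rcases Nat.eq_zero_or_pos j with rfl | hj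
        · simp
        · rw [if_neg (by omega), Polynomial.coeff_eq_zero_of_natDegree_lt (by omega), mul_zero]
      rw [h2, eval_C, sub_self]
  have hne : (p.taylor k - p).coeff (d + 1) ≠ 0 := by
    rw [coeff_sub, taylor_coeff]
    have h2 : (hasseDeriv (d + 1) p) = C (p.coeff (d + 1)) + C ((d + 2 : ℤ) * p.coeff (d + 2)) * X := by
      ext j
      rw [hasseDeriv_coeff, coeff_add, coeff_C, coeff_C_mul, coeff_X]
      rcases Nat.lt_trichotomy j 1 with hj | hj | hj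
      · have hj0 : j = 0 := by omega
        subst hj0
        simp
      · subst hj
        simp only [if_neg (one_ne_zero), if_true, zero_add, mul_one]
        rw [show 1 + (d + 1) = d + 2 by ring]
        congr 1
        rw [show d + 2 = (d + 1) + 1 by ring, Nat.choose_succ_self_right]
        push_cast
        ring
      · rw [if_neg (by omega), if_neg (by omega), Polynomial.coeff_eq_zero_of_natDegree_lt (by omega)]
        simp
    rw [h2]
    simp only [eval_add, eval_C, eval_mul, eval_X]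
    have h3 : p.coeff (d + 2) ≠ 0 := by
      rw [← hp]
      have : p ≠ 0 := by
        rintro rfl
        simp at hp
      exact Polynomial.leadingCoeff_ne_zero.2 this
    have h4 : ((d : ℤ) + 2) ≠ 0 := by positivity
    intro h5
    have h6 : ((d : ℤ) + 2) * p.coeff (d + 2) * k = 0 := by linarith
    rcases mul_eq_zero.1 h6 with h7 | h7
    · rcases mul_eq_zero.1 h7 with h8 | h8
      · exact h4 h8
      · exact h3 h8
    · exact hk h7
  exact le_antisymm hle (Polynomial.le_natDegree_of_ne_zero hne)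

/-- the polynomial mean ergodic theorem, weak form -/
theorem poly_mean (U : H ≃ₗᵢ[ℂ] H) {η : H} (hη : ∀ a : ℤ, a ≠ 0 → η ∈ (fixed (U ^ a))ᗮ) (d : ℕ) :
    ∀ p : ℤ[X], p.natDegree = d + 1 → ∀ v : H, LIM (fun n : ℕ => ⟪v, (U ^ (p.eval (n : ℤ))) η⟫_ℂ) = 0 := by
  induction d with
  | zero =>
    intro p hp v
    obtain ⟨a, ha, c, rfl⟩ := Polynomial.natDegree_eq_one.1 hp
    have h1 := linear_mean U a c (hη a ha) v
    simpa only [eval_add, eval_mul, eval_C, eval_X] using h1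
  | succ d ih =>
    intro p hp v
    refine vdC (x := fun n : ℕ => (U ^ (p.eval (n : ℤ))) η) (fun n => (norm_zpow U _ η).le) ?_ v
    intro k hk
    have h1 := ih (p.taylor (k : ℤ) - p) (natDegree_diff hp (by exact_mod_cast (by omega : k ≠ 0))) η
    rw [← h1]
    congr 1
    funext n
    rw [inner_zpow, ← zpow_add_apply, eval_sub, taylor_eval]
    congr 3
    push_cast
    ring

/-- If `⟪ξ, U ^ (n m ^ r) ξ⟫ = ⟪ξ, U ^ n ξ⟫` for all `n ≠ 0`, `m ≥ 1`, then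
`⟪ξ, U ^ n ξ⟫ = ‖P ξ‖ ^ 2` for all `n ≠ 0`, `P` the projection to the vectors fixed by `U`. -/
theorem const_of_power_invariant (U : H ≃ₗᵢ[ℂ] H) (ξ : H) {r : ℕ} (hr : 1 ≤ r)
    (h : ∀ n : ℤ, n ≠ 0 → ∀ m : ℕ, 1 ≤ m → ⟪ξ, (U ^ (n * (m : ℤ) ^ r)) ξ⟫_ℂ = ⟪ξ, (U ^ n) ξ⟫_ℂ)
    {v₀ v₁ : H} (h₀ : v₀ ∈ fixed U) (h₁ : v₁ ∈ (fixed U)ᗮ) (hv : ξ = v₀ + v₁) (n : ℤ) (hn : n ≠ 0) :
    ⟪ξ, (U ^ n) ξ⟫_ℂ = ((‖v₀‖ ^ 2 : ℝ) : ℂ) := by
  -- the rational part
  let R₀ : ℕ → Submodule ℂ H := fun a => fixed (U ^ ((a + 1).factorial : ℤ))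
  have hmono : Monotone R₀ := by
    refine monotone_nat_of_le_succ fun a => ?_
    intro x hx
    have h2 : ((a + 1 + 1).factorial : ℤ) = ((a + 1).factorial : ℤ) * (a + 1 + 1 : ℤ) := by
      rw [Nat.factorial_succ (a + 1)]
      push_cast
      ring
    show x ∈ fixed (U ^ ((a + 1 + 1).factorial : ℤ))
    rw [h2, zpow_mul]
    exact fixed_le_fixed_zpow _ _ hx
  let R : Submodule ℂ H := (⨆ a, R₀ a).topologicalClosure
  have hRc : IsClosed (R : Set H) := Submodule.isClosed_topologicalClosure _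
  have : CompleteSpace R := hRc.completeSpace_coe
  obtain ⟨ζ, hζ, η, hη, hsum⟩ := Submodule.exists_add_mem_mem_orthogonal (K := R) ξ
  have hη' : ∀ a : ℤ, a ≠ 0 → η ∈ (fixed (U ^ a))ᗮ := by
    intro a ha
    have hle : fixed (U ^ a) ≤ R := by
      intro x hx
      have h3 : x ∈ R₀ a.natAbs := by
        show (U ^ ((a.natAbs + 1).factorial : ℤ)) x = x
        obtain ⟨q, hq⟩ : a ∣ ((a.natAbs + 1).factorial : ℤ) := by
          rw [← Int.natAbs_dvd]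
          exact_mod_cast Nat.dvd_factorial (Int.natAbs_pos.2 ha) (by omega)
        rw [hq, zpow_mul]
        exact fixed_zpow hx q
      exact Submodule.le_topologicalClosure _ (Submodule.mem_iSup_of_mem _ h3)
    exact Submodule.orthogonal_le hle hη
  -- the value is ⟪ξ, ζ⟫_ℂ
  have hval : ∀ n : ℤ, n ≠ 0 → ⟪ξ, (U ^ n) ξ⟫_ℂ = ⟪ξ, ζ⟫_ℂ := by
    intro n hn
    by_contra hne
    have hpos : 0 < ‖⟪ξ, (U ^ n) ξ⟫_ℂ - ⟪ξ, ζ⟫_ℂ‖ := norm_pos_iff.2 (sub_ne_zero.2 hne)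
    set ε := ‖⟪ξ, (U ^ n) ξ⟫_ℂ - ⟪ξ, ζ⟫_ℂ‖ with hε
    -- approximation
    have hζ' : ζ ∈ closure ((⨆ a, R₀ a : Submodule ℂ H) : Set H) := hζ
    obtain ⟨ζ', hζ'm, hdist⟩ := Metric.mem_closure_iff.1 hζ' (ε / (4 * (‖ξ‖ + 1))) (by positivity)
    obtain ⟨A, hA⟩ := (Submodule.mem_iSup_of_directed _ (hmono.directed_le)).1 hζ'm
    have hd : ‖ζ - ζ'‖ ≤ ε / (4 * (‖ξ‖ + 1)) := by
      rw [← dist_eq_norm]
      exact hdist.le
    set N : ℕ := (A + 1).factorial with hN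
    have hNpos : 0 < N := Nat.factorial_pos _
    -- polynomial
    let p : ℤ[X] := C (n * (N : ℤ) ^ r) * (X + 1) ^ r
    have hpd : p.natDegree = (r - 1) + 1 := by
      have h5 : n * (N : ℤ) ^ r ≠ 0 := mul_ne_zero hn (pow_ne_zero _ (by exact_mod_cast hNpos.ne'))
      show (C (n * (N : ℤ) ^ r) * (X + 1) ^ r : ℤ[X]).natDegree = _
      rw [Polynomial.natDegree_C_mul h5, show (X + 1 : ℤ[X]) = X + C 1 by simp,
        Polynomial.natDegree_pow, Polynomial.natDegree_X_add_C]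
      omega
    have hm := poly_mean U hη' (r - 1) p hpd ξ
    have hpe : ∀ m : ℕ, p.eval (m : ℤ) = n * (((N * (m + 1) : ℕ) : ℤ)) ^ r := by
      intro m
      show (C (n * (N : ℤ) ^ r) * (X + 1) ^ r : ℤ[X]).eval (m : ℤ) = _
      simp only [eval_mul, eval_C, eval_pow, eval_add, eval_X, eval_one]
      push_cast
      rw [mul_pow]
      ring
    have hfix : ∀ m : ℕ, (U ^ (p.eval (m : ℤ))) ζ' = ζ' := by
      intro m
      have h5 : ζ' ∈ fixed (U ^ (N : ℤ)) := hA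
      obtain ⟨q, hq⟩ : (N : ℤ) ∣ p.eval (m : ℤ) := by
        rw [hpe]
        refine Dvd.dvd.mul_left ?_ _
        push_cast
        exact (dvd_mul_right (N : ℤ) ((m : ℤ) + 1)).trans (dvd_pow_self _ (by omega))
      rw [hq, zpow_mul]
      exact fixed_zpow h5 q
    -- compare
    have hb1 := bdd_orbit U (fun m : ℕ => p.eval (m : ℤ)) ξ η
    have hb2 := bdd_orbit U (fun m : ℕ => p.eval (m : ℤ)) ξ ζ
    have hb3 : ∀ m : ℕ, ‖⟪ξ, (U ^ (p.eval (m : ℤ))) ζ⟫_ℂ + (-⟪ξ, ζ⟫_ℂ)‖ ≤ ε / 2 := by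
      intro m
      have h6 : ⟪ξ, (U ^ (p.eval (m : ℤ))) ζ⟫_ℂ + (-⟪ξ, ζ⟫_ℂ) =
          ⟪ξ, (U ^ (p.eval (m : ℤ))) (ζ - ζ')⟫_ℂ + ⟪ξ, ζ' - ζ⟫_ℂ := by
        rw [map_sub, inner_sub_right, inner_sub_right, hfix m]
        ring
      rw [h6]
      have h7 : ‖⟪ξ, (U ^ (p.eval (m : ℤ))) (ζ - ζ')⟫_ℂ‖ ≤ ‖ξ‖ * (ε / (4 * (‖ξ‖ + 1))) := by
        refine (norm_inner_le_norm _ _).trans (mul_le_mul_of_nonneg_left ?_ (norm_nonneg _))
        rw [norm_zpow]
        exact hd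
      have h8 : ‖⟪ξ, ζ' - ζ⟫_ℂ‖ ≤ ‖ξ‖ * (ε / (4 * (‖ξ‖ + 1))) := by
        refine (norm_inner_le_norm _ _).trans (mul_le_mul_of_nonneg_left ?_ (norm_nonneg _))
        rw [norm_sub_rev]
        exact hd
      have h9 : ‖ξ‖ * (ε / (4 * (‖ξ‖ + 1))) ≤ ε / 4 := by
        have h10 : 0 ≤ ‖ξ‖ := norm_nonneg _
        rw [mul_div_assoc', div_le_div_iff₀ (by positivity) (by positivity)]
        nlinarith
      refine (norm_add_le _ _).trans ?_
      linarith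
    have hcst : Bdd fun _ : ℕ => -⟪ξ, ζ⟫_ℂ := ⟨‖⟪ξ, ζ⟫_ℂ‖, fun _ => by rw [norm_neg]⟩
    have h11 := norm_LIM_le hb3
    rw [LIM_add hb2 hcst, LIM_const] at h11
    have h12 : LIM (fun m : ℕ => ⟪ξ, (U ^ (p.eval (m : ℤ))) ξ⟫_ℂ) = ⟪ξ, (U ^ n) ξ⟫_ℂ := by
      rw [← LIM_const ⟪ξ, (U ^ n) ξ⟫_ℂ]
      congr 1
      funext m
      rw [hpe]
      exact h n hn (N * (m + 1)) (Nat.mul_pos hNpos (Nat.succ_pos m))
    have h13 : LIM (fun m : ℕ => ⟪ξ, (U ^ (p.eval (m : ℤ))) ξ⟫_ℂ) =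
        LIM (fun m : ℕ => ⟪ξ, (U ^ (p.eval (m : ℤ))) ζ⟫_ℂ) := by
      have h14 := LIM_add hb2 hb1
      rw [hm, add_zero] at h14
      rw [← h14]
      congr 1
      funext m
      conv_lhs => rw [hsum]
      rw [map_add, inner_add_left, inner_add_right, inner_add_right]
      rw [hsum]
      simp only [inner_add_left]
      ring
    rw [h13] at h12
    rw [h12, ← sub_eq_add_neg, ← hε] at h11
    linarith
  -- mean over n
  have h20 := linear_mean U 1 1 (η := v₁) (by rw [zpow_one]; exact h₁) ξ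
  have h21 : LIM (fun m : ℕ => ⟪ξ, (U ^ ((1 : ℤ) * (m : ℤ) + 1)) v₀⟫_ℂ) = ⟪ξ, v₀⟫_ℂ := by
    rw [← LIM_const ⟪ξ, v₀⟫_ℂ]
    congr 1
    funext m
    rw [fixed_zpow h₀]
  have h22 : LIM (fun m : ℕ => ⟪ξ, (U ^ ((1 : ℤ) * (m : ℤ) + 1)) ξ⟫_ℂ) = ⟪ξ, ζ⟫_ℂ := by
    rw [← LIM_const ⟪ξ, ζ⟫_ℂ]
    congr 1
    funext m
    exact hval _ (by positivity)
  have h23 : LIM (fun m : ℕ => ⟪ξ, (U ^ ((1 : ℤ) * (m : ℤ) + 1)) ξ⟫_ℂ) = ⟪ξ, v₀⟫_ℂ := by
    have h24 := LIM_add (bdd_orbit U (fun m : ℕ => (1 : ℤ) * (m : ℤ) + 1) ξ v₀)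
      (bdd_orbit U (fun m : ℕ => (1 : ℤ) * (m : ℤ) + 1) ξ v₁)
    rw [h20, h21, add_zero] at h24
    rw [← h24]
    congr 1
    funext m
    rw [← inner_add_right, ← map_add, ← hv]
  rw [hval n hn, ← h22, h23, hv, inner_add_left, Submodule.inner_left_of_mem_orthogonal h₀ h₁, add_zero,
    inner_self_eq_norm_sq_to_K]
  norm_cast

end Pool.Agent.H640.Chr
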